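import Mathlib

/-!
# Independent domination against the saturation number in regular graphs: a counterexample

Take the complete 3-CNF on five variables: ten literals and the eighty clauses with three
literals on three different variables.  Every literal becomes a class of `12 t` vertices, every
clause a class of `t` vertices; opposite literals are completely joined, and a clause is joined
to its three literals.  The graph is connected and `36 t`-regular.  The literal vertices have a
perfect matching with `60 t` edges, and the clause vertices are independent, so that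
`μ* ≤ 60 t`.  A maximal independent set chooses at most one literal of every variable, contains
the classes of the chosen literals and all clauses without a chosen literal, and this gives at
least `61 t` vertices: `t` times one of `80, 68, 62, 61, 64, 70`.
-/

namespace Pool.Agent.Results.MP_763dcb_co.Disproof

open Finset

variable {V : Type} [Fintype V] [DecidableEq V]

/-- The independent domination number: the least size of a set of vertices which is independent
and dominating. -/
noncomputable def indDomNumber (G : SimpleGraph V) : ℕ :=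
  sInf {n | ∃ D : Finset V, (∀ u ∈ D, ∀ v ∈ D, ¬ G.Adj u v) ∧
    (∀ v, v ∉ D → ∃ u ∈ D, G.Adj v u) ∧ D.card = n}

/-- A set of pairwise vertex-disjoint edges of `G`. -/
def IsMatch (G : SimpleGraph V) (M : Finset (Sym2 V)) : Prop :=
  (∀ e ∈ M, e ∈ G.edgeSet) ∧ ∀ e ∈ M, ∀ f ∈ M, ∀ v, v ∈ e → v ∈ f → e = f

/-- The saturation number: the least number of edges of a maximal matching. -/
noncomputable def satNumber (G : SimpleGraph V) : ℕ :=
  sInf {n | ∃ M : Finset (Sym2 V), Maximal (IsMatch G) M ∧ M.card = n}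

/-! ### The complete 3-CNF on five variables -/

/-- First variable of the `i`-th triple. -/
def tr1 : Fin 10 → Fin 5 := ![0, 0, 0, 0, 0, 0, 1, 1, 1, 2]
/-- Second variable of the `i`-th triple. -/
def tr2 : Fin 10 → Fin 5 := ![1, 1, 1, 2, 2, 3, 2, 2, 3, 3]
/-- Third variable of the `i`-th triple. -/
def tr3 : Fin 10 → Fin 5 := ![2, 3, 4, 3, 4, 4, 3, 4, 4, 4]

/-- Literals. -/
abbrev Lit := Fin 5 × Bool
/-- Clauses. -/
abbrev Cla := Fin 10 × Bool × Bool × Bool

/-- The literal occurs in the clause. -/
def inc (l : Lit) (c : Cla) : Bool :=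
  ((tr1 c.1 == l.1) && (c.2.1 == l.2)) || ((tr2 c.1 == l.1) && (c.2.2.1 == l.2)) ||
    ((tr3 c.1 == l.1) && (c.2.2.2 == l.2))

theorem inc_lit : ∀ l : Lit, (univ.filter fun c : Cla => inc l c = true).card = 24 := by
  decide

theorem inc_cla : ∀ c : Cla, (univ.filter fun l : Lit => inc l c = true).card = 3 := by
  decide

theorem inc_two : ∀ l m : Lit, l.1 ≠ m.1 → ∃ c : Cla, inc l c = true ∧ inc m c = true := by
  decide

/-- The vertex type. -/
abbrev Ver (t : ℕ) := (Lit × Fin (12 * t)) ⊕ (Cla × Fin t)

/-- The relation of adjacency. -/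
def adjB (t : ℕ) : Ver t → Ver t → Bool
  | .inl x, .inl y => (x.1.1 == y.1.1) && (x.1.2 != y.1.2)
  | .inl x, .inr y => inc x.1 y.1
  | .inr x, .inl y => inc y.1 x.1
  | .inr _, .inr _ => false

theorem adjB_symm {t : ℕ} : ∀ x y : Ver t, adjB t x y = true → adjB t y x = true := by
  rintro (x | x) (y | y) h
  · simp only [adjB, Bool.and_eq_true, beq_iff_eq, bne_iff_ne, ne_eq] at h ⊢
    exact ⟨h.1.symm, fun e => h.2 e.symm⟩
  · exact h
  · exact h
  · exact h

theorem adjB_irr {t : ℕ} : ∀ x : Ver t, adjB t x x = true → False := by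
  rintro (x | x) h
  · simp [adjB] at h
  · simp [adjB] at h

/-- The graph. -/
def gr (t : ℕ) : SimpleGraph (Ver t) where
  Adj x y := adjB t x y = true
  symm := ⟨fun x y h => adjB_symm x y h⟩
  loopless := ⟨fun x h => adjB_irr x h⟩

instance (t : ℕ) : DecidableRel (gr t).Adj := fun x y =>
  inferInstanceAs (Decidable (adjB t x y = true))

theorem adj_ll {t : ℕ} (x y : Lit × Fin (12 * t)) :
    (gr t).Adj (.inl x) (.inl y) ↔ x.1.1 = y.1.1 ∧ x.1.2 ≠ y.1.2 := by
  change adjB t _ _ = true ↔ _
  simp [adjB]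

theorem adj_lc {t : ℕ} (x : Lit × Fin (12 * t)) (y : Cla × Fin t) :
    (gr t).Adj (.inl x) (.inr y) ↔ inc x.1 y.1 = true := Iff.rfl

theorem adj_cl {t : ℕ} (x : Lit × Fin (12 * t)) (y : Cla × Fin t) :
    (gr t).Adj (.inr y) (.inl x) ↔ inc x.1 y.1 = true := Iff.rfl

theorem adj_cc {t : ℕ} (x y : Cla × Fin t) : ¬ (gr t).Adj (.inr x) (.inr y) := by
  change ¬ adjB t _ _ = true
  simp [adjB]

/-! ### Degrees -/

theorem reg (t : ℕ) : (gr t).IsRegularOfDegree (36 * t) := by
  rintro (x | x)
  · have h : (gr t).neighborFinset (.inl x) =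
        (({(x.1.1, !x.1.2)} : Finset Lit) ×ˢ (univ : Finset (Fin (12 * t)))).disjSum
          ((univ.filter fun c : Cla => inc x.1 c = true) ×ˢ (univ : Finset (Fin t))) := by
      ext y
      rw [SimpleGraph.mem_neighborFinset]
      rcases y with y | y
      · rw [adj_ll, inl_mem_disjSum, mem_product, mem_singleton]
        obtain ⟨⟨a, b⟩, i⟩ := x
        obtain ⟨⟨c, d⟩, j⟩ := y
        cases b <;> cases d <;> simp [eq_comm]
      · rw [adj_lc, inr_mem_disjSum, mem_product, mem_filter]
        simp
    rw [← SimpleGraph.card_neighborFinset_eq_degree, h, card_disjSum, card_product, card_product,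
      card_singleton, inc_lit, card_univ, card_univ, Fintype.card_fin, Fintype.card_fin]
    ring
  · have h : (gr t).neighborFinset (.inr x) =
        ((univ.filter fun l : Lit => inc l x.1 = true) ×ˢ
          (univ : Finset (Fin (12 * t)))).disjSum (∅ : Finset (Cla × Fin t)) := by
      ext y
      rw [SimpleGraph.mem_neighborFinset]
      rcases y with y | y
      · rw [adj_cl, inl_mem_disjSum, mem_product, mem_filter]
        simp
      · rw [inr_mem_disjSum]
        simp [adj_cc]
    rw [← SimpleGraph.card_neighborFinset_eq_degree, h, card_disjSum, card_product,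
      inc_cla, card_univ, Fintype.card_fin, card_empty]
    ring

/-! ### Connectedness -/

theorem inc_ex : ∀ c : Cla, ∃ l : Lit, inc l c = true := by
  decide

theorem conn {t : ℕ} (ht : 1 ≤ t) : (gr t).Connected := by
  have z : Fin t := ⟨0, ht⟩
  have hl : ∀ x y : Lit × Fin (12 * t), x.1.1 ≠ y.1.1 →
      (gr t).Reachable (.inl x) (.inl y) := by
    intro x y hxy
    obtain ⟨c, h1, h2⟩ := inc_two x.1 y.1 hxy
    have a1 : (gr t).Adj (.inl x) (.inr (c, z)) := (adj_lc _ _).mpr h1
    have a2 : (gr t).Adj (.inr (c, z)) (.inl y) := (adj_cl _ _).mpr h2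
    exact a1.reachable.trans a2.reachable
  have hl' : ∀ x y : Lit × Fin (12 * t), (gr t).Reachable (.inl x) (.inl y) := by
    intro x y
    by_cases hxy : x.1.1 = y.1.1
    · obtain ⟨w, hw⟩ : ∃ w : Fin 5, w ≠ x.1.1 := exists_ne _
      have e : (gr t).Reachable (.inl x) (.inl (((w, true), x.2) : Lit × Fin (12 * t))) :=
        hl _ _ (fun h => hw h.symm)
      exact e.trans (hl _ _ (by rw [← hxy]; exact hw))
    · exact hl x y hxy
  have y0 : Fin (12 * t) := ⟨0, by omega⟩
  have all : ∀ x : Ver t, (gr t).Reachable (.inl (((0, true), y0) : Lit × Fin (12 * t))) x := by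
    rintro (x | x)
    · exact hl' _ _
    · obtain ⟨l, h⟩ := inc_ex x.1
      have a : (gr t).Adj (.inl ((l, y0) : Lit × Fin (12 * t))) (.inr x) := (adj_lc _ _).mpr h
      exact (hl' _ _).trans a.reachable
  have : Nonempty (Ver t) := ⟨.inl ((0, true), y0)⟩
  exact ⟨fun x y => (all x).symm.trans (all y)⟩

/-! ### The matching -/

/-- The edge joining the two vertices with the same index of a variable. -/
def medge (t : ℕ) (x : Fin 5 × Fin (12 * t)) : Sym2 (Ver t) :=
  s(.inl ((x.1, true), x.2), .inl ((x.1, false), x.2))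

theorem mem_medge {t : ℕ} (x : Fin 5 × Fin (12 * t)) (v : Ver t) :
    v ∈ medge t x ↔ ∃ b : Bool, v = .inl ((x.1, b), x.2) := by
  unfold medge
  rw [Sym2.mem_iff]
  constructor
  · rintro (h | h)
    · exact ⟨_, h⟩
    · exact ⟨_, h⟩
  · rintro ⟨b, h⟩
    cases b
    · exact Or.inr h
    · exact Or.inl h

theorem medge_inj (t : ℕ) : Function.Injective (medge t) := by
  intro x y h
  have h1 : (.inl ((x.1, true), x.2) : Ver t) ∈ medge t y := by
    rw [← h]; exact (mem_medge _ _).mpr ⟨_, rfl⟩
  obtain ⟨b, hb⟩ := (mem_medge _ _).mp h1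
  simp only [Sum.inl.injEq, Prod.mk.injEq] at hb
  exact Prod.ext hb.1.1 hb.2

theorem sat_le (t : ℕ) : satNumber (gr t) ≤ 60 * t := by
  apply Nat.sInf_le
  refine ⟨univ.map ⟨medge t, medge_inj t⟩, ⟨⟨?_, ?_⟩, ?_⟩, ?_⟩
  · intro e he
    obtain ⟨x, -, rfl⟩ := mem_map.mp he
    change (gr t).Adj _ _
    rw [adj_ll]
    simp
  · intro e he f hf v hve hvf
    obtain ⟨x, -, rfl⟩ := mem_map.mp he
    obtain ⟨y, -, rfl⟩ := mem_map.mp hf
    obtain ⟨b, hb⟩ := (mem_medge _ _).mp hve
    obtain ⟨c, hc⟩ := (mem_medge _ _).mp hvf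
    rw [hb] at hc
    simp only [Sum.inl.injEq, Prod.mk.injEq] at hc
    have : x = y := Prod.ext hc.1.1 hc.2
    rw [this]
  · intro M' hM' hle e he
    have hed := hM'.1 e he
    have key : ∃ v : Lit × Fin (12 * t), (.inl v : Ver t) ∈ e := by
      induction e using Sym2.ind with
      | _ x y =>
        rcases x with x | x
        · exact ⟨x, Sym2.mem_mk_left _ _⟩
        · rcases y with y | y
          · exact ⟨y, Sym2.mem_mk_right _ _⟩
          · exact absurd hed (adj_cc x y)
    obtain ⟨v, hv⟩ := key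
    have hm : medge t (v.1.1, v.2) ∈ univ.map ⟨medge t, medge_inj t⟩ :=
      mem_map.mpr ⟨_, mem_univ _, rfl⟩
    have hv' : (.inl v : Ver t) ∈ medge t (v.1.1, v.2) := (mem_medge _ _).mpr ⟨v.1.2, rfl⟩
    rw [hM'.2 e he _ (hle hm) _ hv hv']
    exact hm
  · rw [card_map, card_univ, Fintype.card_prod, Fintype.card_fin,
      Fintype.card_fin]
    ring

/-! ### Independent dominating sets -/

/-- The number of clauses without a true literal of the partial assignment. -/
def uns (p : Fin 5 → Option Bool) : Finset Cla :=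
  univ.filter fun c : Cla => ¬ (p (tr1 c.1) = some c.2.1 ∨ p (tr2 c.1) = some c.2.2.1 ∨
    p (tr3 c.1) = some c.2.2.2)

/-- The true literals of a partial assignment. -/
def tru (p : Fin 5 → Option Bool) : Finset Lit :=
  univ.filter fun l : Lit => p l.1 = some l.2

set_option maxRecDepth 100000 in
theorem count_tuple : ∀ a b c d e : Option Bool,
    61 ≤ 12 * (tru ![a, b, c, d, e]).card + (uns ![a, b, c, d, e]).card := by
  decide

theorem count (p : Fin 5 → Option Bool) : 61 ≤ 12 * (tru p).card + (uns p).card := by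
  have h : p = ![p 0, p 1, p 2, p 3, p 4] := by
    ext i
    fin_cases i <;> rfl
  rw [h]
  exact count_tuple _ _ _ _ _

theorem card_ge {t : ℕ} (D : Finset (Ver t)) (hi : ∀ u ∈ D, ∀ v ∈ D, ¬ (gr t).Adj u v)
    (hd : ∀ v, v ∉ D → ∃ u ∈ D, (gr t).Adj v u) : 61 * t ≤ D.card := by
  classical
  set p : Fin 5 → Option Bool := fun v =>
    if ∃ a, (.inl ((v, true), a) : Ver t) ∈ D then some true
    else if ∃ a, (.inl ((v, false), a) : Ver t) ∈ D then some false else none with hp
  have P : ∀ v b a, (.inl ((v, b), a) : Ver t) ∈ D → p v = some b := by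
    intro v b a h
    cases b
    · have h1 : ¬ ∃ a, (.inl ((v, true), a) : Ver t) ∈ D := by
        rintro ⟨a', h'⟩
        exact hi _ h _ h' ((adj_ll _ _).mpr ⟨rfl, by simp⟩)
      have h2 : ∃ a, (.inl ((v, false), a) : Ver t) ∈ D := ⟨a, h⟩
      simp only [hp, if_neg h1, if_pos h2]
    · have h1 : ∃ a, (.inl ((v, true), a) : Ver t) ∈ D := ⟨a, h⟩
      simp only [hp, if_pos h1]
  have Q : ∀ v b, p v = some b → ∃ a, (.inl ((v, b), a) : Ver t) ∈ D := by
    intro v b h
    by_cases h1 : ∃ a, (.inl ((v, true), a) : Ver t) ∈ D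
    · simp only [hp, if_pos h1, Option.some.injEq] at h
      rw [← h]
      exact h1
    · by_cases h2 : ∃ a, (.inl ((v, false), a) : Ver t) ∈ D
      · simp only [hp, if_neg h1, if_pos h2, Option.some.injEq] at h
        rw [← h]
        exact h2
      · simp only [hp, if_neg h1, if_neg h2] at h
        exact absurd h (by simp)
  have F1 : ∀ v b, p v = some b → ∀ a, (.inl ((v, b), a) : Ver t) ∈ D := by
    intro v b h a
    by_contra hn
    obtain ⟨a0, h0⟩ := Q v b h
    obtain ⟨u, hu, hadj⟩ := hd _ hn
    rcases u with u | u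
    · rw [adj_ll] at hadj
      exact hi _ h0 _ hu ((adj_ll _ _).mpr hadj)
    · rw [adj_lc] at hadj
      exact hi _ h0 _ hu ((adj_lc _ _).mpr hadj)
  have F2 : ∀ c ∈ uns p, ∀ s, (.inr (c, s) : Ver t) ∈ D := by
    intro c hc s
    by_contra hn
    obtain ⟨u, hu, hadj⟩ := hd _ hn
    rcases u with u | u
    · obtain ⟨⟨v, b⟩, a⟩ := u
      have h1 := P v b a hu
      rw [adj_cl] at hadj
      apply (mem_filter.mp hc).2
      simp only [inc, Bool.or_eq_true, Bool.and_eq_true, beq_iff_eq] at hadj
      rcases hadj with (⟨e1, e2⟩ | ⟨e1, e2⟩) | ⟨e1, e2⟩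
      · exact Or.inl (by rw [e1, e2, h1])
      · exact Or.inr (Or.inl (by rw [e1, e2, h1]))
      · exact Or.inr (Or.inr (by rw [e1, e2, h1]))
    · exact adj_cc _ _ hadj
  have sub : ((tru p) ×ˢ (univ : Finset (Fin (12 * t)))).disjSum
      ((uns p) ×ˢ (univ : Finset (Fin t))) ⊆ D := by
    intro x hx
    rcases x with x | x
    · rw [inl_mem_disjSum, mem_product] at hx
      exact F1 _ _ (mem_filter.mp hx.1).2 _
    · rw [inr_mem_disjSum, mem_product] at hx
      exact F2 _ hx.1 _
  have hcard := card_le_card sub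
  rw [card_disjSum, card_product, card_product, card_univ, card_univ, Fintype.card_fin,
    Fintype.card_fin] at hcard
  have := Nat.mul_le_mul_right t (count p)
  nlinarith

theorem inc_ex' : ∀ l : Lit, ∃ c : Cla, inc l c = true := by
  decide

/-- The set of all clause vertices. -/
@[irreducible] def cset (t : ℕ) : Finset (Ver t) := univ.filter fun x => x.isRight = true

theorem mem_cset {t : ℕ} (x : Ver t) : x ∈ cset t ↔ x.isRight = true := by
  unfold cset
  simp

theorem cset_indep {t : ℕ} : ∀ u ∈ cset t, ∀ v ∈ cset t, ¬ (gr t).Adj u v := by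
  intro u hu v hv
  rw [mem_cset] at hu hv
  rcases u with u | u
  · simp at hu
  · rcases v with v | v
    · simp at hv
    · exact adj_cc u v

theorem cset_dom {t : ℕ} (ht : 1 ≤ t) : ∀ v, v ∉ cset t → ∃ u ∈ cset t, (gr t).Adj v u := by
  intro v hv
  rcases v with v | v
  · obtain ⟨c, hc⟩ := inc_ex' v.1
    refine ⟨.inr (c, ⟨0, ht⟩), ?_, (adj_lc _ _).mpr hc⟩
    rw [mem_cset]
    rfl
  · refine absurd ?_ hv
    rw [mem_cset]
    rfl

theorem ind_ge {t : ℕ} (ht : 1 ≤ t) : 61 * t ≤ indDomNumber (gr t) := by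
  unfold indDomNumber
  apply le_csInf
  · exact ⟨(cset t).card, cset t, cset_indep, cset_dom ht, rfl⟩
  · rintro n ⟨D, h1, h2, rfl⟩
    exact card_ge D h1 h2

theorem card_ver (t : ℕ) : Fintype.card (Ver t) = 200 * t := by
  rw [Fintype.card_sum, Fintype.card_prod, Fintype.card_prod, Fintype.card_prod,
    Fintype.card_prod, Fintype.card_prod, Fintype.card_prod, Fintype.card_fin, Fintype.card_fin,
    Fintype.card_fin, Fintype.card_fin, Fintype.card_bool]
  ring

/-- **The inequality `i(G) ≤ μ*(G)` fails for regular graphs.**  For every `t ≥ 1` there is a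
connected `36 t`-regular graph on `200 t` vertices whose independent domination number is at
least its saturation number plus `t`. -/
theorem result : ∀ t : ℕ, 1 ≤ t → ∃ (V : Type) (_ : Fintype V) (_ : DecidableEq V)
    (G : SimpleGraph V) (_ : DecidableRel G.Adj),
    Fintype.card V = 200 * t ∧ G.Connected ∧ G.IsRegularOfDegree (36 * t) ∧
      satNumber G + t ≤ indDomNumber G := by
  intro t ht
  refine ⟨Ver t, inferInstance, inferInstance, gr t, inferInstance, card_ver t, conn ht, reg t, ?_⟩
  have h1 := sat_le t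
  have h2 := ind_ge ht
  omega

end Pool.Agent.Results.MP_763dcb_co.Disproof
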